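import Mathlib

/-!
# Project WL (owner helper104), task WL-SGN: signs of products of odd elements

The algebra, over Mathlib.
-/

set_option autoImplicit false

universe u v

namespace Pool.Agent.Y664.WL

theorem sgn_core (K : Type u) [Field K] [CharZero K] (H : Type v) [Ring H] [Algebra K H]
    (O : Submodule K H) (hO : ∀ a ∈ O, ∀ b ∈ O, a * b = -(b * a)) (T : Type) [Fintype T]
    [DecidableEq T] (l : List T) (hl : l.Nodup) (hm : ∀ x, x ∈ l) (a : T → H)
    (ha : ∀ x, a x ∈ O) (σ : Equiv.Perm T) :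
    (l.map fun x => a (σ x)).prod = ((Equiv.Perm.sign σ : ℤ) : K) • (l.map a).prod := by
  have hsq : ∀ x : O, (O.subtype x) * (O.subtype x) = 0 := by
    intro x
    have h1 := hO x x.2 x x.2
    have h2 : (2 : K) • ((x : H) * (x : H)) = 0 := by
      rw [two_smul]
      nth_rewrite 1 [h1]
      exact neg_add_cancel _
    exact (smul_eq_zero.1 h2).resolve_left two_ne_zero
  obtain ⟨g, hg⟩ : ∃ g : ExteriorAlgebra K O →ₐ[K] H, g = ExteriorAlgebra.lift K ⟨O.subtype, hsq⟩ :=
    ⟨_, rfl⟩
  have hgi : ∀ x : O, g (ExteriorAlgebra.ι K x) = (x : H) := by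
    intro x
    rw [hg, ExteriorAlgebra.lift_ι_apply]
    rfl
  obtain ⟨F, hF⟩ : ∃ F : O [⋀^Fin l.length]→ₗ[K] H,
      F = g.toLinearMap.compAlternatingMap (ExteriorAlgebra.ιMulti K l.length) := ⟨_, rfl⟩
  have hFv : ∀ v : Fin l.length → O, F v = (List.ofFn fun i => (v i : H)).prod := by
    intro v
    rw [hF]
    show g (ExteriorAlgebra.ιMulti K l.length v) = _
    rw [ExteriorAlgebra.ιMulti_apply, map_list_prod, List.map_ofFn]
    congr 2
    funext i
    exact hgi (v i)
  obtain ⟨e, he⟩ : ∃ e : Fin l.length ≃ T, ∀ i, e i = l.get i :=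
    ⟨hl.getEquivOfForallMemList l hm, fun i => rfl⟩
  have hprod : ∀ b : T → H, (l.map b).prod = (List.ofFn fun i => b (e i)).prod := by
    intro b
    congr 1
    conv_lhs => rw [← List.ofFn_get l, List.map_ofFn]
    congr 1
    funext i
    rw [he]
    rfl
  rw [hprod, hprod]
  have h1 := F.map_perm (fun i => (⟨a (e i), ha _⟩ : O)) ((e.trans σ).trans e.symm)
  rw [hFv, hFv, Equiv.Perm.sign_trans_trans_symm, Units.smul_def, ← Int.cast_smul_eq_zsmul K] at h1
  rw [← h1]
  congr 2
  funext i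
  simp

end Pool.Agent.Y664.WL
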