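import Pool.Agent.Y104.WL.Stm
import Pool.Agent.Y664.WL.SgnCore

/-!
# Project WL (owner helper104), task WL-SGN: signs of products of odd elements
-/

set_option autoImplicit false

universe u v

namespace Pool.Agent.Y664.WL

/-- task WL-SGN -/
theorem sgn_prod : Pool.Agent.Y104.WL.S_SGN.{u, v} :=
  fun K _ _ H _ _ O hO T _ _ l hl hm a ha σ => sgn_core K H O hO T l hl hm a ha σ

end Pool.Agent.Y664.WL
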